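import Pool.Agent.KS6_76.DKS.Co

/-!
# Densest k-Subgraph for graphs with few modules that induce complements of star forests

Densest k-Subgraph is W[1]-hard already when it is parameterized by the least number of modules
in a partition of the vertices into modules each of which induces the complement of a disjoint
union of stars.  This number is at least the modular-width.
-/

namespace Pool.Agent.Results.MP_93e790_lc.StarForestModules

open Pool.Agent.H633R2 Pool.Agent.NPC

/-- (1) Densest k-Subgraph (instances `(G, k, t)`: does some set of at most `k` vertices induce at
least `t` edges?) parameterized by `coStarNumber G`, the least number of modules in a partition of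
the vertices into modules that induce complements of star forests, is W[1]-hard.
(2) If this decision problem is fixed-parameter tractable for the parameter `coStarNumber`, or if
the optimum value can be computed in fpt time for this parameter, then every problem in W[1] is
fixed-parameter tractable.
(3) `mw(G) ≤ coStarNumber G` for all graphs with at least one vertex.
(4) In particular (1) and (2) hold for the parameter modular-width. -/
theorem result :
    W1Hard (fun x : List (List Bool) × ℕ × ℕ => coStarNumber (graphOf x.1)) DenseSub ∧
    (IsFpt (fun x : List (List Bool) × ℕ × ℕ => coStarNumber (graphOf x.1)) DenseSub ∨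
        FptTime (fun x : List (List Bool) × ℕ => coStarNumber (graphOf x.1)) maxEdges →
      ∀ (α : Type) [TEnc α] (κ : α → ℕ) (P : α → Prop), InW1 κ P → IsFpt κ P) ∧
    (∀ M : List (List Bool), M ≠ [] → modularWidth (graphOf M) ≤ coStarNumber (graphOf M)) ∧
    W1Hard (fun x : List (List Bool) × ℕ × ℕ => modularWidth (graphOf x.1)) DenseSub ∧
    (IsFpt (fun x : List (List Bool) × ℕ × ℕ => modularWidth (graphOf x.1)) DenseSub ∨
        FptTime (fun x : List (List Bool) × ℕ => modularWidth (graphOf x.1)) maxEdges →
      ∀ (α : Type) [TEnc α] (κ : α → ℕ) (P : α → Prop), InW1 κ P → IsFpt κ P) := by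
  have h := W1Hard.of_clique clique_reduces_coStar
  have h' := W1Hard.of_clique clique_reduces
  refine ⟨h, fun h1 α _ κ P hP => h.collapse ?_ hP, ?_, h', fun h1 α _ κ P hP => h'.collapse ?_ hP⟩
  · rcases h1 with h1 | h1
    · exact h1
    · exact H633.isFpt_of_maxEdges_coStar h1
  · intro M hM
    exact modularWidth_le_coStarNumber (List.length_pos_iff.2 hM) _
  · rcases h1 with h1 | h1
    · exact h1
    · exact H633.isFpt_of_maxEdges h1

end Pool.Agent.Results.MP_93e790_lc.StarForestModules
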